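import Pool.Agent.H73.CTG.Stmts

/-!
# Board CTG, row CRI: critical points
-/

set_option autoImplicit false

open Set Filter Topology

namespace Pool.CTG

/-- the Jacobian determinant -/
private noncomputable def criJ {n : ℕ} (f : E n → E n) (z : E n) : ℂ :=
  LinearMap.det (fderiv ℂ f z).toLinearMap

private theorem cri_diff {n : ℕ} (f : E n → E n) (hf : ContDiff ℂ 3 f) :
    Differentiable ℂ (criJ f) := by
  have h1 : ∀ z, criJ f z = ∑ σ : Equiv.Perm (Fin n), Equiv.Perm.sign σ •
      ∏ i, (fderiv ℂ f z ((EuclideanSpace.basisFun (Fin n) ℂ) i)) (σ i) := by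
    intro z
    unfold criJ
    rw [← LinearMap.det_toMatrix (EuclideanSpace.basisFun (Fin n) ℂ).toBasis, Matrix.det_apply]
    refine Finset.sum_congr rfl (fun σ _ => ?_)
    congr 1
    refine Finset.prod_congr rfl (fun i _ => ?_)
    rw [LinearMap.toMatrix_apply]
    simp
  have h2 : Differentiable ℂ (fderiv ℂ f) :=
    (hf.fderiv_right (m := 2) (by norm_num)).differentiable (by norm_num)
  have h3 : criJ f = fun z => ∑ σ : Equiv.Perm (Fin n), Equiv.Perm.sign σ •
      ∏ i, (fderiv ℂ f z ((EuclideanSpace.basisFun (Fin n) ℂ) i)) (σ i) := funext h1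
  rw [h3]
  apply Differentiable.fun_sum
  intro σ _
  apply Differentiable.fun_const_smul
  have h4 : ∀ i : Fin n, Differentiable ℂ
      (fun z => (fderiv ℂ f z ((EuclideanSpace.basisFun (Fin n) ℂ) i)) (σ i)) := by
    intro i
    have h5 : Differentiable ℂ (fun z => fderiv ℂ f z ((EuclideanSpace.basisFun (Fin n) ℂ) i)) :=
      h2.clm_apply (differentiable_const _)
    exact (EuclideanSpace.proj (σ i) : E n →L[ℂ] ℂ).differentiable.comp h5
  intro z
  exact (HasFDerivAt.finsetProd (u := Finset.univ)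
    (g := fun i z => (fderiv ℂ f z ((EuclideanSpace.basisFun (Fin n) ℂ) i)) (σ i))
    (fun i _ => (h4 i z).hasFDerivAt)).differentiableAt

private theorem cri_hom {n d : ℕ} (f : E n → E n) (hd : 1 ≤ d) (hf : ContDiff ℂ 3 f)
    (hh : ∀ (c : ℂ) (z : E n), f (c • z) = c ^ d • f z) (c : ℂ) (hc : c ≠ 0) (z : E n) :
    criJ f (c • z) = c ^ ((d - 1) * n) * criJ f z := by
  have hdf : Differentiable ℂ f := hf.differentiable (by norm_num)
  have h1 : HasFDerivAt (fun y : E n => f (c • y))
      ((fderiv ℂ f (c • z)).comp (c • ContinuousLinearMap.id ℂ (E n))) z := by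
    have h2 : HasFDerivAt (fun y : E n => c • y) (c • ContinuousLinearMap.id ℂ (E n)) z :=
      (hasFDerivAt_id z).const_smul c
    exact HasFDerivAt.comp z (hdf (c • z)).hasFDerivAt h2
  have h3 : HasFDerivAt (fun y : E n => f (c • y)) (c ^ d • fderiv ℂ f z) z := by
    have h4 : (fun y : E n => f (c • y)) = fun y => c ^ d • f y := funext (fun y => hh c y)
    rw [h4]
    exact (hdf z).hasFDerivAt.const_smul (c ^ d)
  have h5 := h1.unique h3
  have h6 : (fderiv ℂ f (c • z)).toLinearMap = c ^ (d - 1) • (fderiv ℂ f z).toLinearMap := by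
    ext1 v
    have h7 : fderiv ℂ f (c • z) (c • v) = c ^ d • fderiv ℂ f z v := by
      have := DFunLike.congr_fun h5 v
      simpa using this
    rw [map_smul] at h7
    have h8 : c ^ d = c * c ^ (d - 1) := by
      rw [← pow_succ', Nat.sub_add_cancel hd]
    rw [h8, mul_smul] at h7
    exact smul_right_injective (E n) hc h7
  unfold criJ
  rw [h6, LinearMap.det_smul, finrank_euclideanSpace, Fintype.card_fin, ← pow_mul]

theorem CRI_thm : CRIStmt := by
  intro n d f hn hd hf hh
  by_contra hcon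
  push Not at hcon
  have hJ : ∀ y : E n, y ≠ 0 → criJ f y ≠ 0 := by
    intro y hy h0
    have hb := hcon y hy
    have h1 : LinearMap.ker (fderiv ℂ f y).toLinearMap = ⊥ := LinearMap.ker_eq_bot.mpr hb.1
    have h2 : IsUnit (LinearMap.det (fderiv ℂ f y).toLinearMap) := by
      rw [← LinearMap.isUnit_iff_isUnit_det]
      exact (LinearMap.isUnit_iff_ker_eq_bot _).mpr h1
    exact h2.ne_zero h0
  have hJd := cri_diff f hf
  set e1 : E n := EuclideanSpace.single ⟨0, by omega⟩ (1 : ℂ) with he1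
  set e2 : E n := EuclideanSpace.single ⟨1, by omega⟩ (1 : ℂ) with he2
  have hne1 : e1 ≠ 0 := by
    intro h0
    have h2 := congrArg (fun v : E n => v ⟨0, by omega⟩) h0
    simp [he1] at h2
  have hne2 : ∀ s : ℂ, s • e1 + e2 ≠ 0 := by
    intro s h0
    have h2 := congrArg (fun v : E n => v ⟨1, by omega⟩) h0
    simp [he1, he2] at h2
  have hg : Differentiable ℂ (fun s : ℂ => (criJ f (s • e1 + e2))⁻¹) := by
    have h1 : Differentiable ℂ (fun s : ℂ => criJ f (s • e1 + e2)) :=
      hJd.comp ((differentiable_id.smul_const e1).add_const e2)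
    exact h1.inv (fun s => hJ _ (hne2 s))
  have hN : (d - 1) * n ≠ 0 := by
    apply Nat.mul_ne_zero <;> omega
  have hlim : Tendsto (fun s : ℂ => (criJ f (s • e1 + e2))⁻¹) (cocompact ℂ) (𝓝 0) := by
    rw [← Metric.cobounded_eq_cocompact]
    have h1 : Tendsto (fun s : ℂ => (s⁻¹) ^ ((d - 1) * n) * (criJ f (e1 + s⁻¹ • e2))⁻¹)
        (Bornology.cobounded ℂ) (𝓝 (0 ^ ((d - 1) * n) * (criJ f (e1 + (0 : ℂ) • e2))⁻¹)) := by
      have h2 : Tendsto (fun s : ℂ => s⁻¹) (Bornology.cobounded ℂ) (𝓝 0) :=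
        Filter.tendsto_inv₀_cobounded
      apply Tendsto.mul (h2.pow _)
      have h3 : Tendsto (fun t : ℂ => (criJ f (e1 + t • e2))⁻¹) (𝓝 0)
          (𝓝 (criJ f (e1 + (0 : ℂ) • e2))⁻¹) := by
        have h4 : Continuous (fun t : ℂ => criJ f (e1 + t • e2)) :=
          hJd.continuous.comp (continuous_const.add (continuous_id.smul continuous_const))
        apply Tendsto.inv₀ (h4.tendsto 0)
        rw [zero_smul, add_zero]
        exact hJ e1 hne1
      exact h3.comp h2
    rw [zero_pow hN, zero_mul] at h1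
    apply h1.congr'
    filter_upwards [Bornology.eventually_ne_cobounded (0 : ℂ)] with s hs
    have h5 : s • e1 + e2 = s • (e1 + s⁻¹ • e2) := by
      rw [smul_add, smul_smul, mul_inv_cancel₀ hs, one_smul]
    rw [h5, cri_hom f (by omega) hf hh s hs, mul_inv, inv_pow]
  have h0 := hg.apply_eq_of_tendsto_cocompact 0 hlim
  have h1 := hJ _ (hne2 0)
  simp only [inv_eq_zero] at h0
  exact h1 h0

end Pool.CTG
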